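import Mathlib

/-!
Combinatorial core: uniformly continuous maps into a direct sum, with respect to the
countable-index topologies.
-/

namespace Pool.Agent.H.MP_8ff4bd_gt

open Set Function

universe u v w

section PerSub

variable {A : Type u} [AddCommGroup A] {B : Type v} [AddCommGroup B]

/-- All translations `w` which move `f` only inside cosets of `N`. -/
def perSub (f : A → B) (N : AddSubgroup B) : AddSubgroup A where
  carrier := {w | ∀ x, f (x + w) - f x ∈ N}
  zero_mem' := by intro x; simp
  add_mem' := by
    intro a b ha hb x
    have h1 := ha x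
    have h2 := hb (x + a)
    have : f (x + (a + b)) - f x = (f (x + a + b) - f (x + a)) + (f (x + a) - f x) := by
      rw [add_assoc]; abel
    rw [this]
    exact N.add_mem h2 h1
  neg_mem' := by
    intro a ha x
    have h1 := ha (x + -a)
    have : f (x + -a) - f x = -(f (x + -a + a) - f (x + -a)) := by
      simp
    rw [this]
    exact N.neg_mem h1

theorem mem_perSub {f : A → B} {N : AddSubgroup B} {w : A} :
    w ∈ perSub f N ↔ ∀ x, f (x + w) - f x ∈ N := Iff.rfl

theorem sub_mem_of_perSub {f : A → B} {N : AddSubgroup B} {x y : A}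
    (h : x - y ∈ perSub f N) : f x - f y ∈ N := by
  have := h y
  simpa using this

theorem perSub_mono {f : A → B} {N N' : AddSubgroup B} (h : N ≤ N') :
    perSub f N ≤ perSub f N' := fun _ hw x => h (hw x)

/-- A quotient is countable as soon as some map to a countable type separates the cosets. -/
theorem countable_quotient_of_map (M : AddSubgroup A) {T : Type w} [Countable T] (φ : A → T)
    (h : ∀ x y, φ x = φ y → x - y ∈ M) : Countable (A ⧸ M) := by
  have : Injective (fun q : A ⧸ M => φ (Quotient.out q)) := by
    intro q q' hq
    have h1 := h _ _ hq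
    have h2 : (QuotientAddGroup.mk (Quotient.out q) : A ⧸ M) = QuotientAddGroup.mk (Quotient.out q') := by
      rw [QuotientAddGroup.eq]
      have := M.neg_mem h1
      simpa [sub_eq_add_neg, add_comm] using this
    simpa [QuotientAddGroup.out_eq'] using h2
  exact this.countable

theorem countable_quotient_mono {M M' : AddSubgroup A} (h : M ≤ M') [Countable (A ⧸ M)] :
    Countable (A ⧸ M') := by
  refine countable_quotient_of_map M' (fun x => (QuotientAddGroup.mk x : A ⧸ M)) ?_
  intro x y hxy
  rw [QuotientAddGroup.eq] at hxy
  have := M.neg_mem hxy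
  apply h
  simpa [sub_eq_add_neg, add_comm] using this

end PerSub

section Finsupp

variable {κ : Type v} {C : Type w} [AddCommGroup C]

/-- Subgroup of finitely supported functions whose sums over the classes of `P` vanish. -/
noncomputable def classKer {T : Type*} (P : κ → T) : AddSubgroup (κ →₀ C) :=
  (Finsupp.mapDomain.addMonoidHom (M := C) P).ker

theorem countable_classKer [Countable C] {T : Type*} [Countable T] (P : κ → T) :
    Countable ((κ →₀ C) ⧸ classKer (C := C) P) := by
  refine countable_quotient_of_map _ (fun x => Finsupp.mapDomain P x) ?_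
  intro x y hxy
  simp only [classKer, AddMonoidHom.mem_ker, map_sub]
  simpa [Finsupp.mapDomain.addMonoidHom, sub_eq_zero] using hxy

theorem mem_classKer {T : Type*} {P : κ → T} {h : κ →₀ C} :
    h ∈ classKer (C := C) P ↔ Finsupp.mapDomain P h = 0 := Iff.rfl

theorem eq_zero_of_mem_classKer {T : Type*} {P : κ → T} {h : κ →₀ C}
    (hh : h ∈ classKer (C := C) P) (hP : Set.InjOn P (h.support : Set κ)) : h = 0 := by
  have := Finsupp.mapDomain_injOn (M := C) (h.support : Set κ) hP
    (show h ∈ {w : κ →₀ C | (w.support : Set κ) ⊆ h.support} from fun _ hx => hx)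
    (show (0 : κ →₀ C) ∈ {w : κ →₀ C | (w.support : Set κ) ⊆ h.support} by simp)
  apply this
  rw [mem_classKer] at hh
  simpa using hh

/-- Subgroup of functions vanishing on `S`. -/
def offSub (C : Type w) [AddCommGroup C] (S : Set κ) : AddSubgroup (κ →₀ C) where
  carrier := {h | ∀ i ∈ S, h i = 0}
  zero_mem' := by intro i _; simp
  add_mem' := by
    intro a b ha hb i hi
    simp [ha i hi, hb i hi]
  neg_mem' := by
    intro a ha i hi
    simp [ha i hi]

theorem mem_offSub {S : Set κ} {h : κ →₀ C} : h ∈ offSub C S ↔ ∀ i ∈ S, h i = 0 := Iff.rfl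

theorem countable_offSub [Countable C] {S : Set κ} (hS : S.Countable) :
    Countable ((κ →₀ C) ⧸ offSub C S) := by
  classical
  haveI : Countable S := hS.to_subtype
  refine countable_quotient_of_map _ (fun x => Finsupp.subtypeDomain (fun i => i ∈ S) x) ?_
  intro x y hxy i hi
  have := DFunLike.congr_fun hxy (⟨i, hi⟩ : {i // i ∈ S})
  simp only [Finsupp.subtypeDomain_apply] at this
  simp [this]

end Finsupp

end Pool.Agent.H.MP_8ff4bd_gt
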