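import Mathlib
import Pool.Agent.H.MP_8ff4bd_gt.Core

/-!
The finiteness claim: the supports of `f (x + y)`, with `x` in a countable set, are contained
in one countable set up to finitely many points.
-/

namespace Pool.Agent.H.MP_8ff4bd_gt

open Set Function

universe u v w

variable {A : Type u} [AddCommGroup A] {κ : Type v} {C : Type w} [AddCommGroup C]

/-- The sum of the values over the points where `P` is true. -/
noncomputable def chi (P : κ → Bool) : (κ →₀ C) →+ C :=
  Finsupp.liftAddHom (fun i => if P i then AddMonoidHom.id C else 0)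

theorem chi_apply (P : κ → Bool) (h : κ →₀ C) :
    chi P h = ∑ i ∈ h.support, if P i then h i else 0 := by
  simp only [chi, Finsupp.liftAddHom_apply, Finsupp.sum]
  refine Finset.sum_congr rfl fun i _ => ?_
  split_ifs <;> simp

theorem chi_congr {P P' : κ → Bool} {h : κ →₀ C} (H : ∀ i ∈ h.support, P i = P' i) :
    chi P h = chi P' h := by
  rw [chi_apply, chi_apply]
  refine Finset.sum_congr rfl fun i hi => ?_
  rw [H i hi]

theorem chi_update_ne [DecidableEq κ] (P : κ → Bool) (h : κ →₀ C) (i : κ) (hi : h i ≠ 0) :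
    chi (Function.update P i true) h ≠ chi (Function.update P i false) h := by
  intro H
  apply hi
  have h1 : chi (Function.update P i true) h - chi (Function.update P i false) h = h i := by
    rw [chi_apply, chi_apply, ← Finset.sum_sub_distrib]
    have : ∀ j ∈ h.support, ((if Function.update P i true j = true then h j else 0) -
        (if Function.update P i false j = true then h j else 0)) = if j = i then h i else 0 := by
      intro j _
      by_cases hj : j = i
      · subst hj; simp
      · simp [hj]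
    rw [Finset.sum_congr rfl this]
    rw [Finset.sum_ite_eq']
    have : i ∈ h.support := by simpa using hi
    simp [this]
  rw [← h1, H, sub_self]

/-- The union of the supports of `f (x + y)` for `x ∈ G0`. -/
def supp (f : A → κ →₀ C) (G0 : Set A) (y : A) : Set κ :=
  ⋃ x ∈ G0, ((f (x + y)).support : Set κ)

theorem mem_supp {f : A → κ →₀ C} {G0 : Set A} {y : A} {i : κ} :
    i ∈ supp f G0 y ↔ ∃ x ∈ G0, f (x + y) i ≠ 0 := by
  simp [supp]

theorem countable_supp {f : A → κ →₀ C} {G0 : Set A} (hG : G0.Countable) (y : A) :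
    (supp f G0 y).Countable :=
  hG.biUnion fun _ _ => (Finset.countable_toSet _)

/-- A partial colouring together with a family of points it separates. -/
structure SepObj (f : A → κ →₀ C) (G0 : Set A) where
  Y : Set A
  P : κ → Bool
  sep : ∀ y ∈ Y, ∀ y' ∈ Y, y ≠ y' → ∃ x ∈ G0, chi P (f (x + y)) ≠ chi P (f (x + y'))

/-- The extension relation. -/
def SepObj.le {f : A → κ →₀ C} {G0 : Set A} (a b : SepObj f G0) : Prop :=
  a.Y ⊆ b.Y ∧ ∀ i ∈ ⋃ y ∈ a.Y, supp f G0 y, a.P i = b.P i

theorem SepObj.le_trans {f : A → κ →₀ C} {G0 : Set A} {a b c : SepObj f G0}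
    (h1 : a.le b) (h2 : b.le c) : a.le c := by
  refine ⟨h1.1.trans h2.1, fun i hi => (h1.2 i hi).trans (h2.2 i ?_)⟩
  exact biUnion_subset_biUnion_left h1.1 hi

theorem SepObj.chain_bound {f : A → κ →₀ C} {G0 : Set A} (c : Set (SepObj f G0))
    (hc : IsChain SepObj.le c) : ∃ ub : SepObj f G0, ∀ a ∈ c, a.le ub := by
  classical
  let P : κ → Bool := fun i => decide (∃ o ∈ c, i ∈ (⋃ y ∈ o.Y, supp f G0 y) ∧ o.P i = true)
  have key : ∀ a ∈ c, ∀ i ∈ ⋃ y ∈ a.Y, supp f G0 y, a.P i = P i := by
    intro a ha i hi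
    rw [Bool.eq_iff_iff]
    constructor
    · intro h
      simp only [P, decide_eq_true_eq]
      exact ⟨a, ha, hi, h⟩
    · intro h
      simp only [P, decide_eq_true_eq] at h
      obtain ⟨o, ho, hio, hoi⟩ := h
      by_cases hao : a = o
      · rw [hao]; exact hoi
      · rcases hc ha ho hao with h | h
        · rw [h.2 i hi]; exact hoi
        · rw [← h.2 i hio]; exact hoi
  refine ⟨⟨⋃ o ∈ c, o.Y, P, ?_⟩, ?_⟩
  · intro y hy y' hy' hne
    simp only [mem_iUnion, exists_prop] at hy hy'
    obtain ⟨o, ho, hyo⟩ := hy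
    obtain ⟨o', ho', hyo'⟩ := hy'
    obtain ⟨a, ha, hya, hya'⟩ : ∃ a ∈ c, y ∈ a.Y ∧ y' ∈ a.Y := by
      by_cases hoo : o = o'
      · exact ⟨o, ho, hyo, hoo ▸ hyo'⟩
      · rcases hc ho ho' hoo with h | h
        · exact ⟨o', ho', h.1 hyo, hyo'⟩
        · exact ⟨o, ho, hyo, h.1 hyo'⟩
    obtain ⟨x, hx, hne'⟩ := a.sep y hya y' hya' hne
    refine ⟨x, hx, ?_⟩
    have e1 : chi P (f (x + y)) = chi a.P (f (x + y)) := by
      refine chi_congr fun i hi => (key a ha i ?_).symm
      simp only [mem_iUnion, exists_prop]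
      exact ⟨y, hya, mem_supp.2 ⟨x, hx, by simpa using hi⟩⟩
    have e2 : chi P (f (x + y')) = chi a.P (f (x + y')) := by
      refine chi_congr fun i hi => (key a ha i ?_).symm
      simp only [mem_iUnion, exists_prop]
      exact ⟨y', hya', mem_supp.2 ⟨x, hx, by simpa using hi⟩⟩
    rw [e1, e2]; exact hne'
  · intro a ha
    exact ⟨subset_biUnion_of_mem (u := fun o : SepObj f G0 => o.Y) ha, key a ha⟩

/-- Baire category step: a countable family of values can be avoided. -/
theorem exists_separating (f : A → κ →₀ C) (G0 : Set A) (Y : Set A) (hY : Y.Countable)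
    (P : κ → Bool) (y : A) (hinf : (supp f G0 y \ ⋃ y' ∈ Y, supp f G0 y').Infinite) :
    ∃ R : κ → Bool, (∀ i ∈ ⋃ y' ∈ Y, supp f G0 y', R i = P i) ∧
      ∀ y' ∈ Y, ∃ x ∈ G0, chi R (f (x + y)) ≠ chi P (f (x + y')) := by
  classical
  set T : Set κ := ⋃ y' ∈ Y, supp f G0 y' with hT
  let R : (κ → Bool) → κ → Bool := fun Q i => if i ∈ T then P i else Q i
  haveI : Countable Y := hY.to_subtype
  letI : TopologicalSpace C := ⊥
  haveI : DiscreteTopology C := ⟨rfl⟩
  let U : Y → Set (κ → Bool) := fun y' =>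
    {Q | ∃ x ∈ G0, chi (R Q) (f (x + y)) ≠ chi P (f (x + (y' : A)))}
  have hcont : ∀ h : κ →₀ C, Continuous fun Q : κ → Bool => chi (R Q) h := by
    intro h
    simp only [chi_apply]
    refine continuous_finsetSum _ fun i _ => ?_
    by_cases hi : i ∈ T
    · simp only [R, hi, if_true]
      exact continuous_const
    · simp only [R, hi, if_false]
      exact (continuous_of_discreteTopology (f := fun b : Bool => if b = true then h i else 0)).comp
        (continuous_apply i)
  have hopen : ∀ y', IsOpen (U y') := by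
    intro y'
    have : U y' = ⋃ x ∈ G0, {Q | chi (R Q) (f (x + y)) ≠ chi P (f (x + (y' : A)))} := by
      ext Q; simp [U]
    rw [this]
    refine isOpen_biUnion fun x _ => ?_
    exact (isOpen_discrete {c : C | c ≠ chi P (f (x + (y' : A)))}).preimage (hcont (f (x + y)))
  have hdense : ∀ y', Dense (U y') := by
    intro y'
    rw [dense_iff_inter_open]
    intro V hV hVne
    obtain ⟨Q0, hQ0⟩ := hVne
    obtain ⟨I, u, hu, huV⟩ := isOpen_pi_iff.1 hV Q0 hQ0
    obtain ⟨i0, hi0, hi0I⟩ := hinf.exists_notMem_finset I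
    obtain ⟨hi0S, hi0T⟩ := hi0
    obtain ⟨x, hx, hne⟩ := mem_supp.1 hi0S
    have hR : ∀ b, R (Function.update Q0 i0 b) = Function.update (R Q0) i0 b := by
      intro b
      funext j
      by_cases hj : j = i0
      · subst hj; simp [R, hi0T]
      · simp [R, Function.update_of_ne hj]
    have hVb : ∀ b, Function.update Q0 i0 b ∈ V := by
      intro b
      apply huV
      intro i hi
      have : i ≠ i0 := fun h => hi0I (h ▸ hi)
      rw [Function.update_of_ne this]
      exact (hu i hi).2
    have := chi_update_ne (R Q0) (f (x + y)) i0 hne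
    by_cases hb : chi (Function.update (R Q0) i0 true) (f (x + y)) = chi P (f (x + (y' : A)))
    · refine ⟨Function.update Q0 i0 false, hVb _, x, hx, ?_⟩
      rw [hR]
      rw [hb] at this
      exact this.symm
    · refine ⟨Function.update Q0 i0 true, hVb _, x, hx, ?_⟩
      rw [hR]
      exact hb
  have hD : Dense (⋂ y', U y') := dense_iInter_of_isOpen hopen hdense
  obtain ⟨Q, hQ⟩ := hD.nonempty
  refine ⟨R Q, fun i hi => by simp only [R]; rw [if_pos hi], fun y' hy' => ?_⟩
  exact mem_iInter.1 hQ ⟨y', hy'⟩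

/-- The finiteness claim. -/
theorem finite_outside (f : A → κ →₀ C) (G0 : Set A) (hG0 : G0.Countable)
    (hf : ∀ P : κ → Bool, Countable (A ⧸ perSub f (chi (C := C) P).ker)) :
    ∃ B : Set κ, B.Countable ∧ ∀ y : A, (supp f G0 y \ B).Finite := by
  classical
  by_contra hcon
  push Not at hcon
  obtain ⟨m, hm⟩ := exists_maximal_of_chains_bounded (r := SepObj.le (f := f) (G0 := G0))
    (SepObj.chain_bound) (fun h1 h2 => SepObj.le_trans h1 h2)
  have hYc : ¬ m.Y.Countable := by
    intro hYc
    have hTc : (⋃ y' ∈ m.Y, supp f G0 y').Countable := hYc.biUnion fun y _ => countable_supp hG0 y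
    obtain ⟨y, hy⟩ := hcon _ hTc
    obtain ⟨R, hR1, hR2⟩ := exists_separating f G0 m.Y hYc m.P y hy
    have hyY : y ∉ m.Y := by
      intro hyY
      apply hy
      have : supp f G0 y \ ⋃ y' ∈ m.Y, supp f G0 y' = ∅ := by
        rw [sdiff_eq_empty]
        exact subset_biUnion_of_mem (u := fun y => supp f G0 y) hyY
      rw [this]
      exact finite_empty
    have hRP : ∀ y' ∈ m.Y, ∀ x ∈ G0, chi R (f (x + y')) = chi m.P (f (x + y')) := by
      intro y' hy' x hx
      refine chi_congr fun i hi => hR1 i ?_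
      simp only [mem_iUnion, exists_prop]
      exact ⟨y', hy', mem_supp.2 ⟨x, hx, by simpa using hi⟩⟩
    let b : SepObj f G0 := ⟨insert y m.Y, R, by
      intro z hz z' hz' hne
      rcases mem_insert_iff.1 hz with hz1 | hz1
      · rcases mem_insert_iff.1 hz' with hz2 | hz2
        · exact absurd (hz1.trans hz2.symm) hne
        · obtain ⟨x, hx, h⟩ := hR2 z' hz2
          exact ⟨x, hx, by rw [hRP z' hz2 x hx, hz1]; exact h⟩
      · rcases mem_insert_iff.1 hz' with hz2 | hz2
        · obtain ⟨x, hx, h⟩ := hR2 z hz1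
          exact ⟨x, hx, by rw [hRP z hz1 x hx, hz2]; exact h.symm⟩
        · obtain ⟨x, hx, h⟩ := m.sep z hz1 z' hz2 hne
          exact ⟨x, hx, by rw [hRP z hz1 x hx, hRP z' hz2 x hx]; exact h⟩⟩
    have hmb : m.le b := ⟨subset_insert _ _, fun i hi => (hR1 i hi).symm⟩
    have := hm b hmb
    exact hyY (this.1 (mem_insert _ _))
  apply hYc
  have hcq := hf m.P
  let φ : m.Y → A ⧸ perSub f (chi (C := C) m.P).ker := fun y => QuotientAddGroup.mk (y : A)
  have hφ : Injective φ := by
    intro y y' hyy
    by_contra hne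
    obtain ⟨x, hx, h⟩ := m.sep y y.2 y' y'.2 (fun h => hne (Subtype.ext h))
    apply h
    have h1 : -(y : A) + y' ∈ perSub f (chi (C := C) m.P).ker := QuotientAddGroup.eq.1 hyy
    have h2 := h1 (x + y)
    rw [AddMonoidHom.mem_ker, map_sub, sub_eq_zero] at h2
    rw [← h2]
    congr 2
    abel
  exact (Set.countable_coe_iff).1 hφ.countable

end Pool.Agent.H.MP_8ff4bd_gt
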