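import Mathlib
import Pool.Agent.H.MP_8ff4bd_gt.Core
import Pool.Agent.H.MP_8ff4bd_gt.ClaimA

/-!
The rigidity theorem in algebraic form.
-/

namespace Pool.Agent.H.MP_8ff4bd_gt

open Set Function

universe u v w

variable {A : Type u} [AddCommGroup A] {κ : Type v} {C : Type w} [AddCommGroup C]

/-- A countable subgroup meeting all cosets of countably many subgroups of countable index. -/
theorem exists_dense_subgroup (L : ℕ → AddSubgroup A) (hL : ∀ k, Countable (A ⧸ L k)) :
    ∃ G0 : AddSubgroup A, (G0 : Set A).Countable ∧ ∀ k, ∀ x : A, ∃ y ∈ G0, x - y ∈ L k := by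
  classical
  let S : Set A := ⋃ k, range (fun q : A ⧸ L k => Quotient.out q)
  have hS : S.Countable := countable_iUnion fun k => by
    haveI := hL k
    exact countable_range _
  refine ⟨AddSubgroup.closure S, ?_, ?_⟩
  · haveI : Countable S := hS.to_subtype
    have h1 : (AddSubgroup.closure S : AddSubgroup A) = (FreeAddGroup.lift (Subtype.val : S → A)).range := by
      rw [FreeAddGroup.range_lift_eq_closure, Subtype.range_coe]
    rw [h1]
    have : ((FreeAddGroup.lift (Subtype.val : S → A)).range : Set A) = range (FreeAddGroup.lift (Subtype.val : S → A)) := by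
      ext; simp
    rw [this]
    haveI : Countable (FreeAddGroup S) :=
      Function.Surjective.countable (f := (FreeAddGroup.mk : List (S × Bool) → FreeAddGroup S))
        (fun q => Quot.exists_rep q)
    exact countable_range _
  · intro k x
    refine ⟨Quotient.out (QuotientAddGroup.mk x : A ⧸ L k), AddSubgroup.subset_closure ?_, ?_⟩
    · exact mem_iUnion.2 ⟨k, ⟨_, rfl⟩⟩
    · have : (QuotientAddGroup.mk (Quotient.out (QuotientAddGroup.mk x : A ⧸ L k)) : A ⧸ L k)
          = QuotientAddGroup.mk x := QuotientAddGroup.out_eq' _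
      rw [QuotientAddGroup.eq] at this
      simpa [sub_eq_add_neg, add_comm] using this

/-- The first `k` coordinates of the reals attached to the indices. -/
def initSeg (r : κ → ℕ → Bool) (k : ℕ) : κ → (Fin k → Bool) := fun i j => r i j

theorem classKer_initSeg_anti (r : κ → ℕ → Bool) {k l : ℕ} (h : k ≤ l) :
    classKer (C := C) (initSeg r l) ≤ classKer (C := C) (initSeg r k) := by
  intro x hx
  rw [mem_classKer] at hx ⊢
  have : initSeg r k = (fun t : Fin l → Bool => fun j : Fin k => t (Fin.castLE h j)) ∘ initSeg r l := by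
    funext i j
    simp [initSeg]
  rw [this, Finsupp.mapDomain_comp, hx, Finsupp.mapDomain_zero]

theorem exists_injOn_initSeg (r : κ → ℕ → Bool) (hr : Injective r) {s : Set κ} (hs : s.Finite) :
    ∃ n, ∀ k, n ≤ k → InjOn (initSeg r k) s := by
  classical
  have h1 : ∀ i j : κ, ∃ n : ℕ, i ≠ j → r i n ≠ r j n := by
    intro i j
    by_cases hij : i = j
    · exact ⟨0, fun h => absurd hij h⟩
    · obtain ⟨n, hn⟩ := Function.ne_iff.1 (fun h => hij (hr h))
      exact ⟨n, fun _ => hn⟩
  choose d hd using h1
  obtain ⟨n, hn⟩ := (Set.Finite.image2 d hs hs).bddAbove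
  refine ⟨n + 1, fun k hk i hi j hj hij => ?_⟩
  by_contra hne
  have h2 : d i j < k := lt_of_lt_of_le (Nat.lt_succ_of_le (hn ⟨i, hi, j, hj, rfl⟩)) hk
  apply hd i j hne
  exact congrFun hij ⟨d i j, h2⟩

/-- Any map which is uniformly continuous for the countable-index topologies has small
second differences. -/
theorem second_difference [Countable C] (r : κ → ℕ → Bool) (hr : Injective r)
    (f : A → κ →₀ C)
    (hf : ∀ N : AddSubgroup (κ →₀ C), Countable ((κ →₀ C) ⧸ N) → Countable (A ⧸ perSub f N)) :
    ∃ B : Set κ, B.Countable ∧ ∀ z ∈ perSub f (offSub C B), ∃ n : ℕ, ∀ x : A,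
      ∀ w ∈ perSub f (classKer (C := C) (initSeg r n)),
        f (x + w + z) - f (x + w) = f (x + z) - f x := by
  classical
  let L : ℕ → AddSubgroup A := fun k => perSub f (classKer (C := C) (initSeg r k))
  have hLc : ∀ k, Countable (A ⧸ L k) := fun k => hf _ (countable_classKer _)
  have hLanti : ∀ {k l : ℕ}, k ≤ l → L l ≤ L k := fun h => perSub_mono (classKer_initSeg_anti r h)
  obtain ⟨G0, hG0c, hG0d⟩ := exists_dense_subgroup L hLc
  obtain ⟨B1, hB1c, hB1⟩ := finite_outside f (G0 : Set A) hG0c (fun P => hf _ (by
    refine countable_quotient_of_map _ (fun x => chi P x) ?_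
    intro x y hxy
    rw [AddMonoidHom.mem_ker, map_sub, hxy, sub_self]))
  let B : Set κ := B1 ∪ ⋃ x ∈ (G0 : Set A), ((f x).support : Set κ)
  have hBc : B.Countable := hB1c.union (hG0c.biUnion fun _ _ => Finset.countable_toSet _)
  refine ⟨B, hBc, ?_⟩
  intro z hz
  -- the finite set carrying all differences
  have hfin : (supp f (G0 : Set A) z \ B).Finite :=
    (hB1 z).subset (sdiff_subset_sdiff_right subset_union_left)
  obtain ⟨n, hn⟩ := exists_injOn_initSeg r hr hfin
  have hG0B : ∀ x ∈ G0, ∀ i, i ∉ B → f x i = 0 := by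
    intro x hx i hi
    by_contra hne
    apply hi
    right
    simp only [mem_iUnion, exists_prop]
    exact ⟨x, hx, by simpa using hne⟩
  -- differences over `G0` are supported in the finite set
  have hdiff : ∀ x ∈ G0, ∀ i, i ∉ supp f (G0 : Set A) z \ B → (f (x + z) - f x) i = 0 := by
    intro x hx i hi
    by_cases hiB : i ∈ B
    · exact hz x i hiB
    · have : i ∉ supp f (G0 : Set A) z := fun h => hi ⟨h, hiB⟩
      have h1 : f (x + z) i = 0 := by
        by_contra hne
        exact this (mem_supp.2 ⟨x, hx, hne⟩)
      rw [Finsupp.sub_apply, h1, hG0B x hx i hiB, sub_zero]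
  -- exact equality on `G0`
  have hstar : ∀ x ∈ G0, ∀ w ∈ G0, w ∈ L n →
      f (x + w + z) - f (x + w) - (f (x + z) - f x) = 0 := by
    intro x hx w hw hwn
    apply eq_zero_of_mem_classKer (P := initSeg r n)
    · have e : f (x + w + z) - f (x + w) - (f (x + z) - f x)
          = (f (x + z + w) - f (x + z)) - (f (x + w) - f x) := by
        rw [add_right_comm x w z]; abel
      rw [e]
      exact AddSubgroup.sub_mem _ (hwn (x + z)) (hwn x)
    · apply (hn n le_rfl).mono
      intro i hi
      by_contra hcon
      have h1 := hdiff (x + w) (G0.add_mem hx hw) i hcon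
      have h2 := hdiff x hx i hcon
      have : (f (x + w + z) - f (x + w) - (f (x + z) - f x)) i = 0 := by
        rw [Finsupp.sub_apply, h1, h2, sub_zero]
      simp only [Finset.mem_coe, Finsupp.mem_support_iff] at hi
      exact hi this
  refine ⟨n, fun x w hw => ?_⟩
  -- approximate
  have happrox : ∀ k, n ≤ k →
      f (x + w + z) - f (x + w) - (f (x + z) - f x) ∈ classKer (C := C) (initSeg r k) := by
    intro k hk
    obtain ⟨x', hx', hxx⟩ := hG0d k x
    obtain ⟨w', hw', hww⟩ := hG0d k w
    have hw'n : w' ∈ L n := by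
      have h1 : w - w' ∈ L n := hLanti hk hww
      have h2 : w ∈ L n := hw
      have : w' = w - (w - w') := by abel
      rw [this]
      exact (L n).sub_mem h2 h1
    have h0 := hstar x' hx' w' hw' hw'n
    have a1 : f (x + w + z) - f (x' + w' + z) ∈ classKer (C := C) (initSeg r k) := by
      apply sub_mem_of_perSub
      have : x + w + z - (x' + w' + z) = (x - x') + (w - w') := by abel
      rw [this]; exact (L k).add_mem hxx hww
    have a2 : f (x + w) - f (x' + w') ∈ classKer (C := C) (initSeg r k) := by
      apply sub_mem_of_perSub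
      have : x + w - (x' + w') = (x - x') + (w - w') := by abel
      rw [this]; exact (L k).add_mem hxx hww
    have a3 : f (x + z) - f (x' + z) ∈ classKer (C := C) (initSeg r k) := by
      apply sub_mem_of_perSub
      have : x + z - (x' + z) = (x - x') := by abel
      rw [this]; exact hxx
    have a4 : f x - f x' ∈ classKer (C := C) (initSeg r k) := sub_mem_of_perSub hxx
    have e : f (x + w + z) - f (x + w) - (f (x + z) - f x)
        = (f (x + w + z) - f (x' + w' + z)) - (f (x + w) - f (x' + w'))
          - ((f (x + z) - f (x' + z)) - (f x - f x'))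
          + (f (x' + w' + z) - f (x' + w') - (f (x' + z) - f x')) := by abel
    rw [e, h0, add_zero]
    exact AddSubgroup.sub_mem _ (AddSubgroup.sub_mem _ a1 a2) (AddSubgroup.sub_mem _ a3 a4)
  obtain ⟨k, hk⟩ := exists_injOn_initSeg r hr
    (Finset.finite_toSet (f (x + w + z) - f (x + w) - (f (x + z) - f x)).support)
  have := eq_zero_of_mem_classKer (happrox (max n k) (le_max_left _ _))
    (hk (max n k) (le_max_right _ _))
  exact sub_eq_zero.1 this

/-- The rigidity theorem, algebraic form. -/
theorem rigid [Countable C] (r : κ → ℕ → Bool) (hr : Injective r) (m : ℕ)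
    (hA : ∀ a : A, m • a = 0) (hC : ∀ c : C, m • c = 0 → c = 0)
    (f : A → κ →₀ C)
    (hf : ∀ N : AddSubgroup (κ →₀ C), Countable ((κ →₀ C) ⧸ N) → Countable (A ⧸ perSub f N)) :
    Countable (A ⧸ perSub f (⊥ : AddSubgroup (κ →₀ C))) := by
  classical
  obtain ⟨B, hB, hmain⟩ := second_difference r hr f hf
  let M : AddSubgroup A := perSub f (offSub C B)
  let L : ℕ → AddSubgroup A := fun k => perSub f (classKer (C := C) (initSeg r k))
  haveI hLc : ∀ k, Countable (A ⧸ L k) := fun k => hf _ (countable_classKer _)
  haveI hMc : Countable (A ⧸ M) := hf _ (countable_offSub hB)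
  have hmain' : ∀ z : M, ∃ n : ℕ, ∀ x : A, ∀ w ∈ L n,
      f (x + w + z) - f (x + w) = f (x + z) - f x := fun z => hmain z z.2
  choose ν hν using hmain'
  have hH : ∀ h : κ →₀ C, m • h = 0 → h = 0 := by
    intro h hh
    ext i
    apply hC
    have := DFunLike.congr_fun hh i
    simpa using this
  -- two points with the same index in the same class differ by a period
  have key : ∀ z1 z2 : M, ν z1 = ν z2 → (z2 : A) - z1 ∈ L (ν z1) →
      (z2 : A) - z1 ∈ perSub f (⊥ : AddSubgroup (κ →₀ C)) := by
    intro z1 z2 hνz hL
    set w : A := (z2 : A) - z1 with hw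
    have D : ∀ x, f (x + w) - f x = f (x + -w + w) - f (x + -w) := by
      intro x
      have h1 := hν z1 x w hL
      have h2 := hν z2 x (-w) (by rw [← hνz]; exact (L (ν z1)).neg_mem hL)
      have e1 : x + w + (z1 : A) = x + z2 := by rw [hw]; abel
      have e2 : x + -w + (z2 : A) = x + z1 := by rw [hw]; abel
      rw [e1] at h1
      rw [e2] at h2
      have e3 : x + -w + w = x := by abel
      rw [e3]
      have h3 : f (x + w) - f x = f (x + ↑z2) - f (x + ↑z1) := by
        have : f (x + w) = f (x + ↑z2) - (f (x + ↑z1) - f x) := by rw [← h1]; abel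
        rw [this]; abel
      have h4 : f x - f (x + -w) = f (x + ↑z2) - f (x + ↑z1) := by
        have : f (x + -w) = f (x + ↑z1) - (f (x + ↑z2) - f x) := by rw [← h2]; abel
        rw [this]; abel
      rw [h3, h4]
    have D' : ∀ (j : ℕ) (x : A), f (x + j • w + w) - f (x + j • w) = f (x + w) - f x := by
      intro j
      induction j with
      | zero => intro x; simp
      | succ j ih =>
        intro x
        have h1 := D (x + (j + 1) • w)
        have e : x + (j + 1) • w + -w = x + j • w := by
          rw [succ_nsmul]; abel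
        rw [e] at h1
        rw [h1, ih]
    have S : ∀ (j : ℕ) (x : A), f (x + j • w) - f x = j • (f (x + w) - f x) := by
      intro j
      induction j with
      | zero => intro x; simp
      | succ j ih =>
        intro x
        have h1 := ih x
        have h2 := D' j x
        have e : x + (j + 1) • w = x + j • w + w := by rw [succ_nsmul]; abel
        rw [e, succ_nsmul, ← h1, ← h2]
        abel
    intro x
    rw [AddSubgroup.mem_bot]
    apply hH
    rw [← S m x, hA w, add_zero, sub_self]
  -- counting
  let out : A ⧸ M → A := fun q => Quotient.out q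
  have hout : ∀ x : A, x - out (QuotientAddGroup.mk x) ∈ M := by
    intro x
    have : (QuotientAddGroup.mk (out (QuotientAddGroup.mk x)) : A ⧸ M) = QuotientAddGroup.mk x :=
      QuotientAddGroup.out_eq' _
    rw [QuotientAddGroup.eq] at this
    simpa [sub_eq_add_neg, add_comm] using this
  let red : A → M := fun x => ⟨x - out (QuotientAddGroup.mk x), hout x⟩
  refine countable_quotient_of_map (T := (A ⧸ M) × (Σ n : ℕ, A ⧸ L n)) _
    (fun x => ((QuotientAddGroup.mk x : A ⧸ M),
      (⟨ν (red x), (QuotientAddGroup.mk ((red x : M) : A) : A ⧸ L (ν (red x)))⟩ : Σ n : ℕ, A ⧸ L n))) ?_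
  intro x y hxy
  rw [Prod.mk.injEq, Sigma.mk.injEq] at hxy
  obtain ⟨h1, h2, h3⟩ := hxy
  have h4 : ((red x : M) : A) - (red y : M) = x - y := by
    simp only [red]
    rw [h1]; abel
  have h5 : ((red x : M) : A) - (red y : M) ∈ L (ν (red y)) := by
    have : (QuotientAddGroup.mk ((red y : M) : A) : A ⧸ L (ν (red y))) =
        QuotientAddGroup.mk ((red x : M) : A) := by
      clear_value red
      revert h3
      generalize hq : ν (red x) = q at h2 ⊢
      subst h2
      intro h3
      exact (eq_of_heq h3).symm
    rw [QuotientAddGroup.eq] at this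
    simpa [sub_eq_add_neg, add_comm] using this
  have := key (red y) (red x) h2.symm h5
  rwa [h4] at this

end Pool.Agent.H.MP_8ff4bd_gt
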